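import Pool.Agent.W732.Ud.Stm

set_option autoImplicit false

/-! UD-T3 : finitely many slices. -/

namespace Pool.Agent.W337.Ud.Thin3

open Metric Set Filter Topology Complex
open Pool.Agent.W732.Cor (V mv tau)
open Pool.Agent.W732.Ud

lemma tel {E : Type} [NormedAddCommGroup E] [NormedSpace ℂ E] (D : Set E) (N : ℕ)
    (f : Fin N → E → ℂ) (hf : ∀ i, DifferentiableOn ℂ (f i) D)
    (hfb : ∀ i, ∀ z ∈ D, ‖f i z‖ ≤ 1) (K : ℝ) (hK : 0 ≤ K) : ∀ (l : ℕ)
    (GG : Fin l → Fin N → E → ℂ), (∀ j i, DifferentiableOn ℂ (GG j i) D) →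
    (∀ j i, ∀ z ∈ D, ‖GG j i z‖ ≤ K) →
    ∃ g : Fin N → E → ℂ, (∀ i, DifferentiableOn ℂ (g i) D) ∧
      (∀ i, ∀ z ∈ D, ‖g i z‖ ≤ l * (K * (1 + N * K) ^ l)) ∧
      ∀ z ∈ D, 1 - ∑ i, f i z * g i z = ∏ j, (1 - ∑ i, f i z * GG j i z) := by
  have hNK : 0 ≤ (N : ℝ) * K := by positivity
  have fac : ∀ (G : Fin N → E → ℂ), (∀ i, ∀ z ∈ D, ‖G i z‖ ≤ K) → ∀ z ∈ D,
      ‖1 - ∑ i, f i z * G i z‖ ≤ 1 + N * K := by
    intro G hG z hz
    refine (norm_sub_le _ _).trans ?_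
    rw [norm_one]
    have h1 : ‖∑ i, f i z * G i z‖ ≤ ∑ i : Fin N, K := by
      refine (norm_sum_le _ _).trans (Finset.sum_le_sum fun i _ => ?_)
      rw [norm_mul]
      calc ‖f i z‖ * ‖G i z‖ ≤ 1 * K :=
            mul_le_mul (hfb i z hz) (hG i z hz) (norm_nonneg _) zero_le_one
        _ = K := one_mul K
    rw [Finset.sum_const, Finset.card_univ, Fintype.card_fin, nsmul_eq_mul] at h1
    linarith
  intro l
  induction l with
  | zero =>
    intro GG _ _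
    refine ⟨fun _ _ => 0, fun i => differentiableOn_const 0, fun i z _ => by simp, fun z _ => by simp⟩
  | succ l ih =>
    intro GG hd hb
    obtain ⟨g, hg1, hg2, hg3⟩ := ih (fun j => GG j.castSucc) (fun j i => hd _ i)
      (fun j i => hb _ i)
    refine ⟨fun i z => g i z + GG (Fin.last l) i z * (1 - ∑ k, f k z * g k z), ?_, ?_, ?_⟩
    · intro i
      refine (hg1 i).add ((hd _ i).mul ((differentiableOn_const 1).sub ?_))
      exact DifferentiableOn.fun_sum fun k _ => (hf k).mul (hg1 k)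
    · intro i z hz
      have h1 : ‖1 - ∑ k, f k z * g k z‖ ≤ (1 + N * K) ^ l := by
        rw [hg3 z hz, norm_prod]
        calc ∏ j : Fin l, ‖1 - ∑ i, f i z * GG j.castSucc i z‖ ≤ ∏ _j : Fin l, (1 + N * K) :=
              Finset.prod_le_prod (fun j _ => norm_nonneg _)
                (fun j _ => fac _ (fun i => hb _ i) z hz)
          _ = (1 + N * K) ^ l := by simp
      have h2 := hg2 i z hz
      have h3 : ‖GG (Fin.last l) i z * (1 - ∑ k, f k z * g k z)‖ ≤ K * (1 + N * K) ^ l := by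
        rw [norm_mul]
        exact mul_le_mul (hb _ i z hz) h1 (norm_nonneg _) hK
      have h4 : ‖g i z + GG (Fin.last l) i z * (1 - ∑ k, f k z * g k z)‖ ≤
          ((l : ℝ) + 1) * (K * (1 + N * K) ^ l) := by
        refine (norm_add_le _ _).trans ?_
        linarith
      have h5 : (1 + N * K) ^ l ≤ (1 + N * K) ^ (l + 1) :=
        pow_le_pow_right₀ (by linarith) (Nat.le_succ l)
      refine h4.trans ?_
      push_cast
      apply mul_le_mul_of_nonneg_left _ (by positivity)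
      exact mul_le_mul_of_nonneg_left h5 hK
    · intro z hz
      rw [Fin.prod_univ_castSucc, ← hg3 z hz]
      have h1 : ∑ i, f i z * (g i z + GG (Fin.last l) i z * (1 - ∑ k, f k z * g k z)) =
          ∑ i, f i z * g i z + (∑ i, f i z * GG (Fin.last l) i z) *
            (1 - ∑ k, f k z * g k z) := by
        rw [Finset.sum_mul, ← Finset.sum_add_distrib]
        exact Finset.sum_congr rfl fun i _ => by ring
      rw [h1]; ring

lemma TT_mono {m : ℕ} {p : V m} (hp : ‖p‖ = 1) {ρ ρ' : ℝ} (h0 : 0 ≤ ρ) (h : ρ ≤ ρ') :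
    TT p ρ ⊆ TT p ρ' := by
  intro z hz
  refine ⟨hz.1, hz.2.trans ?_⟩
  apply mul_le_mul_of_nonneg_right (pow_le_pow_left₀ h0 h 2)
  have h1 : ‖(inner ℂ p z : ℂ)‖ ≤ ‖p‖ * ‖z‖ := norm_inner_le_norm p z
  have h2 : ‖z‖ < 1 := by simpa using hz.1
  rw [hp, one_mul] at h1
  have h3 := norm_nonneg (inner ℂ p z : ℂ)
  nlinarith

theorem main : S_thin2 → S_thin3 := by
  classical
  intro H m p hp N l δ ρ ε hδ hρ0 hρ1 hε
  obtain ⟨ρ', hρ'⟩ : ∃ x : ℝ, x = max ρ (1 / 2) := ⟨_, rfl⟩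
  have hρ'0 : 0 < ρ' := by rw [hρ']; exact lt_max_of_lt_right (by norm_num)
  have hρ'1 : ρ' < 1 := by rw [hρ']; exact max_lt hρ1 (by norm_num)
  have hρρ' : ρ ≤ ρ' := by rw [hρ']; exact le_max_left _ _
  obtain ⟨t, ht⟩ : ∃ x : ℝ, x = ρ' ^ ((((l + 2 : ℕ) : ℝ))⁻¹) := ⟨_, rfl⟩
  have htp : t ^ (l + 2) = ρ' := by
    rw [ht]; exact Real.rpow_inv_natCast_pow hρ'0.le (by omega)
  have ht0 : 0 < t := by rw [ht]; exact Real.rpow_pos_of_pos hρ'0 _
  have ht1 : t < 1 := by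
    rw [ht]; exact Real.rpow_lt_one hρ'0.le hρ'1 (by positivity)
  have htρ : ρ' < t := by
    rw [← htp]
    calc t ^ (l + 2) < t ^ 1 := pow_lt_pow_right_of_lt_one₀ ht0 ht1 (by omega)
      _ = t := pow_one t
  obtain ⟨C0, hC0, hC⟩ := H m p hp N δ ρ' t hδ hρ'0 htρ ht1
  have hNC : 0 ≤ (N : ℝ) * C0 := by positivity
  -- choice of M
  obtain ⟨M, hM⟩ : ∃ M : ℕ, C0 * (1 + N * C0) ^ l * t ^ (M + 1) ≤ ε := by
    obtain ⟨n, hn⟩ := exists_pow_lt_of_lt_one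
      (show 0 < ε / (C0 * (1 + N * C0) ^ l + 1) by positivity) ht1
    refine ⟨n, ?_⟩
    have h1 : t ^ (n + 1) ≤ t ^ n := pow_le_pow_of_le_one ht0.le ht1.le (Nat.le_succ n)
    have h2 : t ^ (n + 1) ≤ ε / (C0 * (1 + N * C0) ^ l + 1) := h1.trans hn.le
    have h3 : 0 ≤ C0 * (1 + N * C0) ^ l := by positivity
    calc C0 * (1 + N * C0) ^ l * t ^ (n + 1)
        ≤ C0 * (1 + N * C0) ^ l * (ε / (C0 * (1 + N * C0) ^ l + 1)) :=
          mul_le_mul_of_nonneg_left h2 h3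
      _ ≤ ε := by
          rw [← mul_div_assoc, div_le_iff₀ (by positivity)]
          nlinarith
  obtain ⟨K, hK⟩ : ∃ K : ℝ, K = C0 * (1 / t) ^ (M + 1) := ⟨_, rfl⟩
  have hK0 : 0 ≤ K := by rw [hK]; positivity
  refine ⟨l * (K * (1 + N * K) ^ l), ?_⟩
  intro ψ φ hψφ f hf
  have hD : ∀ j, Datum N δ (ball 0 1) (fun i => f i ∘ ψ j) := fun j =>
    { hol := fun i => (hf.hol i).comp (hψφ j).1 (hψφ j).2.2.1
      bd := fun i z hz => hf.bd i _ ((hψφ j).2.2.1 hz)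
      low := fun z hz => hf.low _ ((hψφ j).2.2.1 hz) }
  choose g hg1 hg2 hg3 using fun j => hC (M + 1) (Nat.succ_pos M) _ (hD j)
  obtain ⟨G, hG1, hG2, hG3⟩ := tel (ball (0 : V m) 1) N f hf.hol hf.bd K hK0 l
    (fun j i => g j i ∘ φ j)
    (fun j i => (hg1 j i).comp (hψφ j).2.1 (hψφ j).2.2.2.1)
    (fun j i z hz => by rw [hK]; exact hg2 j i _ ((hψφ j).2.2.2.1 hz))
  refine ⟨G, hG1, hG2, ?_⟩
  intro j z hz
  have hzb : z ∈ ball (0 : V m) 1 := hz.1
  have hw : ψ j z ∈ ball (0 : V m) 1 := (hψφ j).2.2.1 hzb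
  rw [norm_sub_rev, hG3 _ hw, norm_prod, ← Finset.mul_prod_erase Finset.univ _ (Finset.mem_univ j)]
  have h1 : ‖1 - ∑ i, f i (ψ j z) * (g j i ∘ φ j) (ψ j z)‖ ≤ C0 * (ρ' / t) ^ (M + 1) := by
    rw [norm_sub_rev]
    have h2 := hg3 j z (TT_mono hp hρ0 hρρ' hz)
    simp only [Function.comp_apply] at h2 ⊢
    rw [(hψφ j).2.2.2.2.1 z hzb]
    exact h2
  have hti : 1 ≤ (1 / t) ^ (M + 1) := one_le_pow₀ (by rw [le_div_iff₀ ht0]; linarith)
  have h2 : ∏ x ∈ Finset.univ.erase j, ‖1 - ∑ i, f i (ψ j z) * (g x i ∘ φ x) (ψ j z)‖ ≤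
      ((1 + N * C0) * (1 / t) ^ (M + 1)) ^ l := by
    have h3 : ∀ x ∈ Finset.univ.erase j,
        ‖1 - ∑ i, f i (ψ j z) * (g x i ∘ φ x) (ψ j z)‖ ≤ (1 + N * C0) * (1 / t) ^ (M + 1) := by
      intro x _
      refine (norm_sub_le _ _).trans ?_
      rw [norm_one]
      have h4 : ‖∑ i, f i (ψ j z) * (g x i ∘ φ x) (ψ j z)‖ ≤ ∑ i : Fin N, C0 * (1 / t) ^ (M + 1) := by
        refine (norm_sum_le _ _).trans (Finset.sum_le_sum fun i _ => ?_)
        rw [norm_mul]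
        calc ‖f i (ψ j z)‖ * ‖(g x i ∘ φ x) (ψ j z)‖ ≤ 1 * (C0 * (1 / t) ^ (M + 1)) :=
              mul_le_mul (hf.bd i _ hw) (hg2 x i _ ((hψφ x).2.2.2.1 hw)) (norm_nonneg _) zero_le_one
          _ = C0 * (1 / t) ^ (M + 1) := one_mul _
      rw [Finset.sum_const, Finset.card_univ, Fintype.card_fin, nsmul_eq_mul] at h4
      linarith
    have h5 : 1 ≤ (1 + N * C0) * (1 / t) ^ (M + 1) := by
      have : (1 : ℝ) * 1 ≤ (1 + N * C0) * (1 / t) ^ (M + 1) :=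
        mul_le_mul (by linarith) hti zero_le_one (by positivity)
      linarith
    calc ∏ x ∈ Finset.univ.erase j, ‖1 - ∑ i, f i (ψ j z) * (g x i ∘ φ x) (ψ j z)‖
        ≤ ∏ _x ∈ Finset.univ.erase j, ((1 + N * C0) * (1 / t) ^ (M + 1)) :=
          Finset.prod_le_prod (fun _ _ => norm_nonneg _) h3
      _ = ((1 + N * C0) * (1 / t) ^ (M + 1)) ^ (Finset.univ.erase j).card := by
          rw [Finset.prod_const]
      _ ≤ ((1 + N * C0) * (1 / t) ^ (M + 1)) ^ l := by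
          apply pow_le_pow_right₀ h5
          have h6 := Finset.card_erase_le (s := (Finset.univ : Finset (Fin l))) (a := j)
          rw [Finset.card_univ, Fintype.card_fin] at h6
          exact h6
  refine (mul_le_mul h1 h2 (Finset.prod_nonneg fun _ _ => norm_nonneg _) (by positivity)).trans ?_
  refine le_trans (le_of_eq ?_) hM
  have e1 : ρ' / t * (1 / t) ^ l = t := by
    rw [← htp, one_div, inv_pow]
    have : t ^ (l + 2) = t * t * t ^ l := by ring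
    rw [this]
    field_simp
  calc C0 * (ρ' / t) ^ (M + 1) * ((1 + N * C0) * (1 / t) ^ (M + 1)) ^ l
      = C0 * (1 + N * C0) ^ l * (ρ' / t * (1 / t) ^ l) ^ (M + 1) := by
        rw [mul_pow (1 + N * C0), mul_pow (ρ' / t), ← pow_mul (1 / t), ← pow_mul (1 / t),
          mul_comm (M + 1) l]
        ring
    _ = C0 * (1 + N * C0) ^ l * t ^ (M + 1) := by rw [e1]

end Pool.Agent.W337.Ud.Thin3
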